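import Pool.Agent.H500.TH.Stm
import Pool.Agent.H860.SV.Res

set_option autoImplicit false
set_option linter.unusedSectionVars false

/-!
# Project TH (helper500), part E2: the subgroups of the local data are the same for many places

Adaptation of the last theorem of `Pool/Agent/H860/SV/Res.lean` (the lemmas of that file are used).
-/

namespace Pool.Agent.H734.TH.TRes

open NumberField IsDedekindDomain Filter Topology Polynomial
open Pool.Agent.W401.Cheb (GK IsFrob IsInert dens)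
open Pool.Agent.H500.HC (InRay IsRayChar TotPos QBar ZBar em typ jz)
open Pool.Agent.H500.MW (PosUD)
open Pool.Agent.H500.R2 (UnrOut SpC)
open Pool.Agent.H500.SV
open Pool.Agent.H860.SV.Res

theorem main : Pool.Agent.H500.SV.S_UM → Pool.Agent.H500.SV.S_E1 → Pool.Agent.H500.SV.S_HM →
    Pool.Agent.H500.TH.S_TCyc → Pool.Agent.H500.TH.S_TRes := by
  intro hUM hE1 hHM hCyc K E F _ _ _ _ _ _ i0 j N n B M P α hN hM hBM hP hV hL Λ hΛ hSD
  classical
  set FF := (hHM K N (B * M ^ (n ^ 2)) hN).toFinset with hF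
  have hdat : ∀ lam, Λ lam → ∃ U0 ∈ FF, ∃ S : SD j N n B P lam, ∃ U', Dat j N n B M P U0 lam S U' := by
    intro lam hlam
    obtain ⟨S⟩ := hSD lam hlam
    obtain ⟨U', h1, h2, h3, h4, h5, h6, -⟩ := hUM K E j N n B P lam S M hM
    refine ⟨UnrCl N U', ?_, S, U', ⟨h1, h2, h3, h4, h5, h6, rfl⟩⟩
    rw [hF, Set.Finite.mem_toFinset]
    have hle := le_cl N U'
    refine ⟨cl_normal N U', Subgroup.isOpen_mono hle h3, ?_, ?_, cl_unr N U'⟩
    · have hd := Subgroup.index_dvd_of_le hle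
      exact (Nat.le_of_dvd (Nat.pos_of_ne_zero (index_ne_zero h3)) hd).trans h5
    · obtain ⟨r, hr⟩ := h6
      exact ⟨r, hr.trans hle⟩
  obtain ⟨U0, hU0F, hPos⟩ := pigeon FF hΛ
    (fun U0 lam => ∃ S : SD j N n B P lam, ∃ U', Dat j N n B M P U0 lam S U') hdat
  rw [hF, Set.Finite.mem_toFinset] at hU0F
  obtain ⟨hU0n, hU0o, hU0i, hU0s, hU0u⟩ := hU0F
  refine ⟨U0, hU0n, hU0o, hU0i, hU0s, hU0u, ?_⟩
  obtain ⟨L, _, _, _, ι, Fd, hcard⟩ := hL U0 hU0n hU0o hU0i hU0s hU0u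
  set V : Set (HeightOneSpectrum (𝓞 K)) := {v | (N : 𝓞 K) ∉ v.asIdeal ∧ SpC F v ∧ NoRU α v} with hVdef
  set V' : Set (HeightOneSpectrum (𝓞 L)) :=
    {w | (N : 𝓞 L) ∉ w.asIdeal ∧ SpC F w ∧ ∃ v ∈ V, Above w v} with hV'def
  have hV' : V'.Infinite := by
    intro hfin
    apply hV
    have h1 := hfin.image (fun w => w.asIdeal.comap (algebraMap (𝓞 K) (𝓞 L)))
    have h2 : Set.InjOn (fun v : HeightOneSpectrum (𝓞 K) => v.asIdeal) V :=
      fun a _ b _ hab => HeightOneSpectrum.ext hab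
    refine Set.Finite.of_finite_image (h1.subset ?_) h2
    rintro _ ⟨v, hv, rfl⟩
    obtain ⟨σ, hσ⟩ := Pool.Agent.H500.R2.frob_at v
    have h3 := hE1 K E j N n B M P α hM hBM v hv.1 (hP v hv.1) hv.2.2
    obtain ⟨lam, ⟨S, U', D⟩, hlam⟩ := (hPos.infinite.sdiff h3).nonempty
    have h4 : σ ∈ U' := by
      rw [D.mem]
      by_contra hcon
      exact hlam ⟨S, σ, hσ, hcon⟩
    have h5 : σ ∈ ι.range := by
      rw [Fd.range]
      exact D.le h4
    obtain ⟨s, rfl⟩ := h5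
    obtain ⟨w, hw, -, hws⟩ := Fd.frob' v s hσ
    exact ⟨w, ⟨fun h => hv.1 ((nat_mem_iff hw N).1 h), spc_of hw hv.2.1, v, hv, hw⟩, hw⟩
  have hm : 0 < (B * M ^ (n ^ 2)).factorial := Nat.factorial_pos _
  have hcyc := hCyc L E F i0 hcard N _ hN hm V' hV' (fun w hw => ⟨hw.1, hw.2.1⟩)
    (fun lam θ => ∃ S : SD j N n B P lam, ∃ U', Dat j N n B M P U0 lam S U' ∧ U'.comap ι ≤ θ.ker)
    (by
      rintro lam θ ⟨S, U', D, hθ⟩
      exact ⟨D.open_ker Fd hθ, D.pow hθ, D.unr Fd hθ⟩)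
    (by
      rintro w ⟨hw1, hw2, v, hv, hwv⟩
      have h3 := hE1 K E j N n B M P α hM hBM v hv.1 (hP v hv.1) hv.2.2
      refine (h3.union (fin_norm (E := E) v)).subset ?_
      rintro lam ⟨θ, ⟨S, U', D, hθ⟩, s, hs, hθs⟩
      by_contra hcon
      rw [Set.mem_union, not_or] at hcon
      apply hθs
      obtain ⟨f, -, hf⟩ := Fd.frob v w hwv
      obtain ⟨σ, τ, hσ, hτ, hst⟩ := hf s hs
      have h4 : σ ∈ U' := by
        rw [D.mem]
        by_contra hcon'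
        exact hcon.1 ⟨S, σ, hσ, hcon'⟩
      have h5 : τ ∈ U' := by
        refine D.inert ?_ hτ
        rw [Nat.cast_mul]
        intro h6
        exact (v.isPrime.mem_or_mem h6).elim hv.1 hcon.2
      apply hθ
      rw [Subgroup.mem_comap, hst]
      exact U'.mul_mem (U'.pow_mem h4 f) h5)
  refine (hPos.diff hcyc).mono ?_
  rintro lam ⟨⟨S, U', D⟩, hlam⟩
  refine ⟨S, fun g hg => ?_⟩
  have h1 := D.top hU0n Fd (fun θ hθ => by
    by_contra hcon
    exact hlam ⟨θ, ⟨S, U', D, hθ⟩, hcon⟩)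
  exact (D.mem g).1 (h1 hg)

end Pool.Agent.H734.TH.TRes
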